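import Pool.Agent.U737.MN.Stm3

/-! Project MN, package NotFullL: Kummer theory with exponent `ℓ` over the normal closure. -/

set_option autoImplicit false

namespace Pool.Agent.U128.MN

open Pool.Agent.U737.MN

section Gen

variable {V Ω ι : Type} [Field V] [Field Ω] [Algebra V Ω]

/-- the Kummer characters realised by automorphisms -/
def Wm {ℓ : ℕ} (ψ : AddChar (ZMod ℓ) Ω) (hψ : ∀ a, ∃ v : V, ψ a = algebraMap V Ω v)
    (η : ι → Ω) : Submodule (ZMod ℓ) (ι → ZMod ℓ) :=
  AddSubgroup.toZModSubmodule ℓ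
    { carrier := {c | ∃ σ : Ω ≃ₐ[V] Ω, ∀ i, σ (η i) = ψ (c i) * η i}
      zero_mem' := ⟨1, fun i => by simp⟩
      add_mem' := by
        rintro c d ⟨σ, hσ⟩ ⟨τ, hτ⟩
        refine ⟨σ * τ, fun i => ?_⟩
        obtain ⟨v, hv⟩ := hψ (d i)
        rw [AlgEquiv.mul_apply, hτ, map_mul, hσ, hv, AlgEquiv.commutes, ← hv, Pi.add_apply,
          AddChar.map_add_eq_mul]
        ring
      neg_mem' := by
        rintro c ⟨σ, hσ⟩
        refine ⟨σ⁻¹, fun i => ?_⟩
        obtain ⟨v, hv⟩ := hψ (-(c i))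
        apply σ.injective
        have h1 : σ (σ⁻¹ (η i)) = η i := by
          rw [← AlgEquiv.mul_apply, mul_inv_cancel, AlgEquiv.one_apply]
        rw [h1, map_mul, hσ, Pi.neg_apply, hv, AlgEquiv.commutes, ← hv, ← mul_assoc,
          ← AddChar.map_add_eq_mul, neg_add_cancel, AddChar.map_zero_eq_one, one_mul] }

theorem mem_Wm {ℓ : ℕ} (ψ : AddChar (ZMod ℓ) Ω) (hψ : ∀ a, ∃ v : V, ψ a = algebraMap V Ω v)
    (η : ι → Ω) (c : ι → ZMod ℓ) :
    c ∈ Wm ψ hψ η ↔ ∃ σ : Ω ≃ₐ[V] Ω, ∀ i, σ (η i) = ψ (c i) * η i := Iff.rfl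

theorem finrank_kum [Fintype ι] [DecidableEq ι] [CharZero V] [IsAlgClosed Ω]
    [Algebra.IsAlgebraic V Ω] {ℓ : ℕ} (hℓ : ℓ.Prime) {ζ : V} (hζ : IsPrimitiveRoot ζ ℓ)
    {w : ι → V} {η : ι → Ω} (hw : ∀ i, w i ≠ 0) (hη : ∀ i, η i ^ ℓ = algebraMap V Ω (w i))
    (hcon : ∀ (S : Finset ι) (a : ι → ℕ), S.Nonempty → (∀ i ∈ S, ¬ ℓ ∣ a i) →
      ¬ ∃ y : V, y ^ ℓ = ∏ i ∈ S, w i ^ a i) :
    Module.finrank V (IntermediateField.adjoin V (Set.range η)) = ℓ ^ Fintype.card ι := by
  classical
  have : Fact ℓ.Prime := ⟨hℓ⟩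
  have hz : IsPrimitiveRoot (algebraMap V Ω ζ) ℓ := hζ.map_of_injective (algebraMap V Ω).injective
  set z : Ω := algebraMap V Ω ζ with hzdef
  set ψ : AddChar (ZMod ℓ) Ω := AddChar.zmodChar ℓ hz.pow_eq_one with hψdef
  have hψa : ∀ a, ψ a = z ^ a.val := fun a => rfl
  have hψ : ∀ a, ∃ v : V, ψ a = algebraMap V Ω v := fun a =>
    ⟨ζ ^ a.val, by rw [hψa, map_pow]⟩
  have hψinj : ∀ a b, ψ a = ψ b → a = b := by
    intro a b hab
    rw [hψa, hψa] at hab
    exact ZMod.val_injective ℓ (hz.pow_inj (ZMod.val_lt a) (ZMod.val_lt b) hab)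
  have hη0 : ∀ i, η i ≠ 0 := by
    intro i h
    have h1 := hη i
    rw [h, zero_pow hℓ.ne_zero] at h1
    exact hw i ((map_eq_zero (algebraMap V Ω)).1 h1.symm)
  have hgal : IsGalois V Ω := by
    have h1 : IsAlgClosure V Ω := ⟨inferInstance, inferInstance⟩
    have : Normal V Ω := IsAlgClosure.normal V Ω
    exact ⟨⟩
  -- every homomorphism moves `η i` by a root of unity
  have hchar : ∀ {E : Type} [Field E] [Algebra V E] (f : E →ₐ[V] Ω) (e : ι → E),
      (∀ i, e i ^ ℓ = algebraMap V E (w i)) → ∃ c : ι → ZMod ℓ, ∀ i, f (e i) = ψ (c i) * η i := by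
    intro E _ _ f e he
    have h1 : ∀ i, ∃ c : ZMod ℓ, f (e i) = ψ c * η i := by
      intro i
      have h2 : (f (e i) / η i) ^ ℓ = 1 := by
        rw [div_pow, ← map_pow, he, AlgHom.commutes, hη, div_self]
        exact (map_ne_zero (algebraMap V Ω)).2 (hw i)
      obtain ⟨k, hk, hk2⟩ := hz.eq_pow_of_pow_eq_one h2
      refine ⟨(k : ZMod ℓ), ?_⟩
      rw [hψa, ZMod.val_cast_of_lt hk, hk2, div_mul_cancel₀ _ (hη0 i)]
    choose c hc using h1
    exact ⟨c, hc⟩
  have hW : Wm ψ hψ η = ⊤ := by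
    by_contra hne
    obtain ⟨f, hf0, hf⟩ := Submodule.exists_le_ker_of_lt_top _ (lt_top_iff_ne_top.2 hne)
    set a : ι → ZMod ℓ := fun i => f (Pi.single i 1) with ha
    have hfa : ∀ c : ι → ZMod ℓ, f c = ∑ i, c i * a i := by
      intro c
      have h1 : c = ∑ i, c i • (Pi.single i (1 : ZMod ℓ) : ι → ZMod ℓ) := by
        ext j
        simp [Finset.sum_apply, Pi.single_apply]
      conv_lhs => rw [h1]
      rw [map_sum]
      simp [ha]
    set m : Ω := ∏ i, η i ^ (a i).val with hm
    have hfix : ∀ σ : Ω ≃ₐ[V] Ω, σ m = m := by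
      intro σ
      obtain ⟨c, hc⟩ := hchar σ.toAlgHom η hη
      have hc' : ∀ i, σ (η i) = ψ (c i) * η i := hc
      have hcW : c ∈ Wm ψ hψ η := ⟨σ, hc'⟩
      have h0 : ∑ i, c i * a i = 0 := by
        rw [← hfa]
        exact LinearMap.mem_ker.1 (hf hcW)
      have h1 : ∏ i, ψ (c i) ^ (a i).val = 1 := by
        have h2 : ∀ i, ψ (c i) ^ (a i).val = ψ (c i * a i) := by
          intro i
          rw [← AddChar.map_nsmul_eq_pow, nsmul_eq_mul, ZMod.natCast_zmod_val, mul_comm]
        have h3 : ∀ (T : Finset ι) (g : ι → ZMod ℓ), ∏ i ∈ T, ψ (g i) = ψ (∑ i ∈ T, g i) := by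
          intro T g
          induction T using Finset.induction_on with
          | empty => simp
          | insert j T hj ih => rw [Finset.prod_insert hj, Finset.sum_insert hj, ih,
              AddChar.map_add_eq_mul]
        rw [Finset.prod_congr rfl (fun i _ => h2 i), h3, h0, AddChar.map_zero_eq_one]
      rw [hm, map_prod]
      simp only [map_pow, hc', mul_pow]
      rw [Finset.prod_mul_distrib, h1, one_mul]
    obtain ⟨y, hy⟩ := (InfiniteGalois.mem_range_algebraMap_iff_fixed m).2 hfix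
    have hS : (Finset.univ.filter (fun i => a i ≠ 0)).Nonempty := by
      by_contra hS
      rw [Finset.not_nonempty_iff_eq_empty, Finset.filter_eq_empty_iff] at hS
      apply hf0
      ext c
      have hz0 : ∀ i, a i = 0 := fun i => not_not.1 (hS (Finset.mem_univ i))
      simpa [ha] using hz0 c
    refine hcon (Finset.univ.filter (fun i => a i ≠ 0)) (fun i => (a i).val) hS ?_ ⟨y, ?_⟩
    · intro i hi hdvd
      have hi' : a i ≠ 0 := (Finset.mem_filter.1 hi).2
      have h1 : (a i).val = 0 := Nat.eq_zero_of_dvd_of_lt hdvd (ZMod.val_lt _)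
      exact hi' ((ZMod.val_eq_zero _).1 h1)
    · apply (algebraMap V Ω).injective
      rw [map_pow, hy, hm, ← Finset.prod_pow, map_prod]
      symm
      rw [Finset.prod_filter]
      apply Finset.prod_congr rfl
      intro i _
      by_cases hi : a i = 0
      · simp [hi]
      · rw [if_pos hi, map_pow, ← hη, ← pow_mul, ← pow_mul, mul_comm]
  -- count the homomorphisms
  have hmem : ∀ i, η i ∈ IntermediateField.adjoin V (Set.range η) := fun i =>
    IntermediateField.subset_adjoin _ _ ⟨i, rfl⟩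
  have hfd : FiniteDimensional V (IntermediateField.adjoin V (Set.range η)) := by
    apply IntermediateField.finiteDimensional_adjoin
    intro x _
    exact Algebra.IsIntegral.isIntegral x
  set E := IntermediateField.adjoin V (Set.range η) with hE
  let e : ι → E := fun i => ⟨η i, hmem i⟩
  have he : ∀ i, e i ^ ℓ = algebraMap V E (w i) := by
    intro i
    apply (algebraMap E Ω).injective
    rw [map_pow]
    exact hη i
  have hcard : Fintype.card (E →ₐ[V] Ω) = Module.finrank V E := AlgHom.card V E Ω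
  rw [← hcard]
  have hchoice : ∀ f : E →ₐ[V] Ω, ∃ c : ι → ZMod ℓ, ∀ i, f (e i) = ψ (c i) * η i := fun f =>
    hchar f e he
  choose C hC using hchoice
  have hbij : Function.Bijective C := by
    constructor
    · intro f g hfg
      apply IntermediateField.adjoin_algHom_ext
      rintro _ ⟨i, rfl⟩
      show f (e i) = g (e i)
      rw [hC, hC, hfg]
    · intro c
      have h1 : c ∈ Wm ψ hψ η := by rw [hW]; trivial
      obtain ⟨σ, hσ⟩ := h1
      refine ⟨σ.toAlgHom.comp E.val, ?_⟩
      funext i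
      apply hψinj
      have h2 := hC (σ.toAlgHom.comp E.val) i
      have h3 : (σ.toAlgHom.comp E.val) (e i) = σ (η i) := rfl
      rw [h3, hσ] at h2
      exact (mul_right_cancel₀ (hη0 i) h2).symm
  rw [Fintype.card_of_bijective hbij, Fintype.card_fun, ZMod.card]

end Gen

theorem auxL {K Ω : Type} [Field K] [NumberField K] [Field Ω] [Algebra K Ω] [IsAlgClosure K Ω]
    {ℓ : ℕ} (hℓ : ℓ.Prime) {ζ : K} (hζ : IsPrimitiveRoot ζ ℓ)
    (M : IntermediateField K Ω) [FiniteDimensional K M] (L N : IntermediateField K Ω)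
    (α : M) (hα : α ≠ 0) (s : Ω) (hs : s ^ ℓ = (α : Ω))
    (hL : L = M ⊔ IntermediateField.adjoin K {s}) (hMN : M ≤ N) (hNn : Normal K N)
    (hσM : ∀ (σ : Ω →ₐ[K] Ω) (m : M), σ m ∈ N) (NL : IntermediateField K Ω) (hNL : N ≤ NL)
    (hLN : ∀ σ : Ω →ₐ[K] Ω, L.map σ ≤ NL)
    (hNL' : ∀ E : IntermediateField K Ω, (∀ σ : Ω →ₐ[K] Ω, L.map σ ≤ E) → NL ≤ E)
    (hcon : ∀ (S : Finset (M →ₐ[K] N)) (a : (M →ₐ[K] N) → ℕ), S.Nonempty →
      (∀ φ ∈ S, ¬ ℓ ∣ a φ) → ¬ ∃ y : N, y ^ ℓ = ∏ φ ∈ S, (φ α) ^ (a φ)) :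
    Module.finrank K NL = ℓ ^ Module.finrank K M * Module.finrank K N := by
  classical
  have hac : IsAlgClosed Ω := IsAlgClosure.isAlgClosed K
  have hnorm : Normal K Ω := IsAlgClosure.normal K Ω
  have halg : Algebra.IsAlgebraic K Ω := IsAlgClosure.isAlgebraic
  have halgN : Algebra.IsAlgebraic N Ω := Algebra.IsAlgebraic.tower_top (K := K) _
  have hchar : CharZero N := charZero_of_injective_algebraMap (algebraMap K N).injective
  have hζN : IsPrimitiveRoot (algebraMap K N ζ) ℓ := hζ.map_of_injective (algebraMap K N).injective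
  have hζΩ : IsPrimitiveRoot (algebraMap K Ω ζ) ℓ := hζ.map_of_injective (algebraMap K Ω).injective
  have hex : ∀ φ : M →ₐ[K] N, ∃ t : Ω, t ^ ℓ = algebraMap N Ω (φ α) := fun φ =>
    IsAlgClosed.exists_pow_nat_eq _ hℓ.pos
  choose η hη using hex
  have : Fintype (M →ₐ[K] N) := Fintype.ofFinite _
  have hdeg := finrank_kum (w := fun φ : M →ₐ[K] N => φ α) hℓ hζN
    (fun φ => (map_ne_zero φ).2 hα) hη hcon
  have hcard : Fintype.card (M →ₐ[K] N) = Module.finrank K M := by
    have h1 := AlgHom.card_of_splits K M N (fun x => by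
        have h3 := hNn.splits (IntermediateField.inclusion hMN x)
        rwa [minpoly.algHom_eq (IntermediateField.inclusion hMN)
          (IntermediateField.inclusion hMN).injective] at h3)
    rw [← h1]
    convert rfl
  -- two roots of the same element
  have hroot : ∀ (E : IntermediateField K Ω) (u v : Ω), u ^ ℓ = v ^ ℓ → v ∈ E → u ∈ E := by
    intro E u v h hv
    by_cases hv0 : v = 0
    · rw [hv0, zero_pow hℓ.ne_zero] at h
      rw [pow_eq_zero_iff hℓ.ne_zero |>.1 h]
      exact zero_mem E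
    · have : NeZero ℓ := ⟨hℓ.ne_zero⟩
      have h2 : (u / v) ^ ℓ = 1 := by
        rw [div_pow, h, div_self (pow_ne_zero _ hv0)]
      obtain ⟨k, _, hk2⟩ := hζΩ.eq_pow_of_pow_eq_one h2
      have h3 : u = algebraMap K Ω ζ ^ k * v := by rw [hk2, div_mul_cancel₀ _ hv0]
      rw [h3]
      exact mul_mem (pow_mem (IntermediateField.algebraMap_mem E ζ) k) hv
  have hNC : (IntermediateField.adjoin N (Set.range η)).restrictScalars K = NL := by
    apply le_antisymm
    · have h3 : IntermediateField.adjoin N (Set.range η) ≤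
          IntermediateField.extendScalars hNL := by
        rw [IntermediateField.adjoin_le_iff]
        rintro _ ⟨φ, rfl⟩
        show η φ ∈ NL
        set σ : Ω →ₐ[K] Ω := φ.liftNormal Ω with hσ
        apply hroot _ (η φ) (σ s)
        · rw [hη, ← map_pow, hs]
          exact (φ.liftNormal_commutes Ω α).symm
        · apply hLN σ
          refine ⟨s, ?_, rfl⟩
          rw [hL]
          exact (le_sup_right : IntermediateField.adjoin K {s} ≤ _)
            (IntermediateField.mem_adjoin_simple_self K s)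
      exact h3
    · apply hNL'
      intro σ
      rw [hL, IntermediateField.map_sup, IntermediateField.adjoin_map, Set.image_singleton]
      apply sup_le
      · rintro _ ⟨m, hm, rfl⟩
        show σ m ∈ IntermediateField.adjoin N (Set.range η)
        exact IntermediateField.algebraMap_mem _ (⟨σ m, hσM σ ⟨m, hm⟩⟩ : N)
      · rw [IntermediateField.adjoin_simple_le_iff]
        show σ s ∈ (IntermediateField.adjoin N (Set.range η)).restrictScalars K
        let φ : M →ₐ[K] N :=
          (σ.comp M.val).codRestrict N.toSubalgebra (fun m => hσM σ m)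
        apply hroot _ (σ s) (η φ)
        · rw [hη, ← map_pow, hs]
          rfl
        · exact IntermediateField.subset_adjoin _ _ ⟨_, rfl⟩
  rw [← hNC, ← hcard, ← hdeg]
  have h7 := Module.finrank_mul_finrank K N (IntermediateField.adjoin N (Set.range η))
  rw [mul_comm, h7]
  rfl

theorem t_NotFullL : Pool.Agent.U737.MN.NotFullL := by
  intro ℓ K Ω _ _ _ _ _ M L _ α s hℓ hζ hα hs hK hne
  by_contra hcon
  obtain ⟨ζ, hζ⟩ := hζ
  obtain ⟨_, _, hL⟩ := hK
  have hML : M ≤ L := by rw [hL]; exact le_sup_left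
  apply hne
  have hnorm : Normal K Ω := IsAlgClosure.normal K Ω
  have h1 : ∀ σ : Ω →ₐ[K] Ω, M.map σ ≤ IntermediateField.normalClosure K M Ω := by
    intro σ
    rw [IntermediateField.normalClosure_def' M]
    exact le_iSup (fun f : Ω →ₐ[K] Ω => M.map f) σ
  have h2 : ∀ σ : Ω →ₐ[K] Ω, L.map σ ≤ IntermediateField.normalClosure K L Ω := by
    intro σ
    rw [IntermediateField.normalClosure_def' L]
    exact le_iSup (fun f : Ω →ₐ[K] Ω => L.map f) σ
  have hNL : IntermediateField.normalClosure K M Ω ≤ IntermediateField.normalClosure K L Ω := by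
    rw [IntermediateField.normalClosure_def' M]
    apply iSup_le
    intro σ
    exact le_trans (IntermediateField.map_mono σ hML) (h2 σ)
  refine auxL hℓ hζ M L (IntermediateField.normalClosure K M Ω) α hα s hs hL M.le_normalClosure
    inferInstance (fun σ m => h1 σ ⟨m, m.2, rfl⟩) (IntermediateField.normalClosure K L Ω) hNL h2
    ?_ ?_
  · intro E hE
    rw [IntermediateField.normalClosure_def' L]
    exact iSup_le hE
  · intro S a hS ha hy
    exact hcon ⟨S, a, hS, ha, hy⟩

end Pool.Agent.U128.MN
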